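import Mathlib

/-!
# Admissible degrees for a generalized triangle presentation
-/

namespace Pool.Agent.H19W

/-- `n` is admissible for the exponents `p, q, r` and the word `u` in three letters: `n ≥ 3` and
the alternating group of degree `n` is generated by elements `ξ, η, ζ` with
`ξ ^ p = η ^ q = ζ ^ r = ξ η ζ u(ξ, η, ζ) = 1`. -/
def Admissible (p q r : ℕ) (u : FreeGroup (Fin 3)) (n : ℕ) : Prop :=
  3 ≤ n ∧ ∃ ξ η ζ : alternatingGroup (Fin n),
    Subgroup.closure {ξ, η, ζ} = ⊤ ∧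
      ξ ^ p = 1 ∧ η ^ q = 1 ∧ ζ ^ r = 1 ∧ ξ * η * ζ * FreeGroup.lift ![ξ, η, ζ] u = 1

end Pool.Agent.H19W
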