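import Mathlib
import Pool.Agent.H19W.TriDefs

/-!
# MP_73c65d_al, question Q2: negative answer

`Admissible p q r u n` says that `n ≥ 3` and that the alternating group of degree `n` is
generated by elements `ξ, η, ζ` with `ξ ^ p = η ^ q = ζ ^ r = ξ η ζ u(ξ, η, ζ) = 1`.

We show that there are distinct primes `p, q, r` and a commutator word `u` for which the only
admissible `n` is `5` (namely `(p, q, r) = (2, 3, 5)` and `u = 1`).  The upper bound is a
coset enumeration done by hand: in a group with `x ^ 2 = z ^ 5 = (z x) ^ 3 = 1` the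
sixty elements `z ^ a * t`, with `t` in a list of twelve words, are closed under right
multiplication by `x` and `z`.
-/

namespace Pool.Agent.H19W

open scoped commutatorElement

section Bound

variable {G : Type*} [Group G] {x z : G}

/-- The twelve coset representatives. -/
def rep (x z : G) : Fin 12 → G :=
  ![1, x, x * z, x * z ^ 2, x * z ^ 3, x * z ^ 4,
    x * z ^ 2 * x, x * z ^ 2 * x * z, x * z ^ 2 * x * z ^ 2, x * z ^ 2 * x * z ^ 3,
    x * z ^ 2 * x * z ^ 4, x * z ^ 2 * x * z ^ 3 * x]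

/-- The sixty candidate elements. -/
def el (x z : G) (a : Fin 5 × Fin 12) : G := z ^ (a.1 : ℕ) * rep x z a.2

theorem r4 (hx : x * x = 1) (hz : z ^ 5 = 1) (h : x * z * x = z ^ 4 * x * z ^ 4) :
    x * z ^ 4 * x = z * x * z := by
  have h1 : z * (x * z * x) * z = x := by
    rw [h]
    calc z * (z ^ 4 * x * z ^ 4) * z = z ^ 5 * x * z ^ 5 := by
          simp only [pow_succ, pow_zero, one_mul, mul_assoc]
      _ = x := by rw [hz, one_mul, mul_one]
  calc x * z ^ 4 * x = x * z ^ 4 * (z * (x * z * x) * z) := by rw [h1]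
    _ = x * z ^ 5 * (x * z * x) * z := by simp only [pow_succ, pow_zero, one_mul, mul_assoc]
    _ = (x * x) * z * x * z := by rw [hz]; simp only [mul_one, mul_assoc]
    _ = z * x * z := by rw [hx, one_mul]

theorem r2 (hx : x * x = 1) (hz : z ^ 5 = 1) (h : x * z * x = z ^ 4 * x * z ^ 4) :
    x * z ^ 2 * x = z ^ 4 * x * z ^ 3 * x * z ^ 4 := by
  calc x * z ^ 2 * x = x * z * (x * x) * z * x := by
        rw [hx]; simp only [pow_succ, pow_zero, one_mul, mul_one, mul_assoc]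
    _ = (x * z * x) * (x * z * x) := by simp only [mul_assoc]
    _ = z ^ 4 * x * z ^ 5 * z ^ 3 * x * z ^ 4 := by
        rw [h]; simp only [pow_succ, pow_zero, one_mul, mul_assoc]
    _ = _ := by rw [hz, mul_one]

theorem r3 (hx : x * x = 1) (hz : z ^ 5 = 1) (h : x * z * x = z ^ 4 * x * z ^ 4) :
    x * z ^ 3 * x = z * x * z ^ 2 * x * z := by
  calc x * z ^ 3 * x = x * z ^ 3 * z ^ 5 * x := by rw [hz, mul_one]
    _ = x * z ^ 4 * (1 : G) * z ^ 4 * x := by
        simp only [pow_succ, pow_zero, one_mul, mul_one, mul_assoc]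
    _ = (x * z ^ 4 * x) * (x * z ^ 4 * x) := by rw [← hx]; simp only [mul_assoc]
    _ = _ := by rw [r4 hx hz h]; simp only [pow_succ, pow_zero, one_mul, mul_assoc]

theorem r11 (hx : x * x = 1) (hz : z ^ 5 = 1) (h : x * z * x = z ^ 4 * x * z ^ 4) :
    x * z ^ 2 * x * z ^ 3 * x * z = z ^ 4 * (x * z ^ 2 * x * z ^ 3 * x) := by
  have h3 := r3 hx hz h
  have e : x * z ^ 2 * x * z ^ 3 * x = z * (x * z ^ 2 * x * z ^ 3 * x) * z := by
    calc x * z ^ 2 * x * z ^ 3 * x = x * z ^ 2 * (x * z ^ 3 * x) := by simp only [mul_assoc]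
      _ = x * z ^ 2 * (z * x * z ^ 2 * x * z) := by rw [h3]
      _ = (x * z ^ 3 * x) * z ^ 2 * x * z := by
          simp only [pow_succ, pow_zero, one_mul, mul_assoc]
      _ = (z * x * z ^ 2 * x * z) * z ^ 2 * x * z := by rw [h3]
      _ = _ := by simp only [pow_succ, pow_zero, one_mul, mul_assoc]
  symm
  calc z ^ 4 * (x * z ^ 2 * x * z ^ 3 * x) = z ^ 4 * (z * (x * z ^ 2 * x * z ^ 3 * x) * z) := by
        rw [← e]
    _ = z ^ 5 * (x * z ^ 2 * x * z ^ 3 * x * z) := by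
        simp only [pow_succ, pow_zero, one_mul, mul_assoc]
    _ = _ := by rw [hz, one_mul]

theorem mulz (hx : x * x = 1) (hz : z ^ 5 = 1) (h : x * z * x = z ^ 4 * x * z ^ 4)
    (i : Fin 12) : ∃ (b : ℕ) (j : Fin 12), rep x z i * z = z ^ b * rep x z j := by
  have key : ∀ w : G, w * z ^ 4 * z = w := fun w => by
    rw [mul_assoc, ← pow_succ, hz, mul_one]
  fin_cases i
  · exact ⟨1, 0, by simp [rep]⟩
  · exact ⟨0, 2, by simp [rep]⟩
  · exact ⟨0, 3, by simp [rep, pow_succ, mul_assoc]⟩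
  · exact ⟨0, 4, by simp [rep, pow_succ, mul_assoc]⟩
  · exact ⟨0, 5, by simp [rep, pow_succ, mul_assoc]⟩
  · exact ⟨0, 1, by simpa [rep] using key x⟩
  · exact ⟨0, 7, by simp [rep]⟩
  · exact ⟨0, 8, by simp [rep, pow_succ, mul_assoc]⟩
  · exact ⟨0, 9, by simp [rep, pow_succ, mul_assoc]⟩
  · exact ⟨0, 10, by simp [rep, pow_succ, mul_assoc]⟩
  · exact ⟨0, 6, by simpa [rep] using key (x * z ^ 2 * x)⟩
  · exact ⟨4, 11, r11 hx hz h⟩

theorem mulx (hx : x * x = 1) (hz : z ^ 5 = 1) (h : x * z * x = z ^ 4 * x * z ^ 4)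
    (i : Fin 12) : ∃ (b : ℕ) (j : Fin 12), rep x z i * x = z ^ b * rep x z j := by
  have key : ∀ w : G, w * x * x = w := fun w => by rw [mul_assoc, hx, mul_one]
  have h2 := r2 hx hz h
  have h3 := r3 hx hz h
  have h4 := r4 hx hz h
  fin_cases i
  · exact ⟨0, 1, by simp [rep]⟩
  · exact ⟨0, 0, by simpa [rep] using hx⟩
  · exact ⟨4, 5, by simpa [rep, mul_assoc] using h⟩
  · exact ⟨0, 6, by simp [rep]⟩
  · refine ⟨1, 7, ?_⟩
    change x * z ^ 3 * x = z ^ 1 * (x * z ^ 2 * x * z)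
    rw [h3]; simp only [pow_one, mul_assoc]
  · refine ⟨1, 2, ?_⟩
    change x * z ^ 4 * x = z ^ 1 * (x * z)
    rw [h4]; simp only [pow_one, mul_assoc]
  · refine ⟨0, 3, ?_⟩
    change x * z ^ 2 * x * x = z ^ 0 * (x * z ^ 2)
    rw [key, pow_zero, one_mul]
  · refine ⟨4, 4, ?_⟩
    change x * z ^ 2 * x * z * x = z ^ 4 * (x * z ^ 3)
    calc x * z ^ 2 * x * z * x = x * z ^ 2 * (x * z * x) := by simp only [mul_assoc]
      _ = x * z ^ 2 * (z ^ 4 * x * z ^ 4) := by rw [h]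
      _ = x * z * z ^ 5 * x * z ^ 4 := by simp only [pow_succ, pow_zero, one_mul, mul_assoc]
      _ = (x * z * x) * z ^ 4 := by rw [hz, mul_one]
      _ = (z ^ 4 * x * z ^ 4) * z ^ 4 := by rw [h]
      _ = z ^ 4 * x * z ^ 5 * z ^ 3 := by simp only [pow_succ, pow_zero, one_mul, mul_assoc]
      _ = _ := by rw [hz, mul_one, mul_assoc]
  · refine ⟨4, 10, ?_⟩
    change x * z ^ 2 * x * z ^ 2 * x = z ^ 4 * (x * z ^ 2 * x * z ^ 4)
    calc x * z ^ 2 * x * z ^ 2 * x = (x * z ^ 2 * x) * z ^ 2 * x := by simp only [mul_assoc]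
      _ = (z ^ 4 * x * z ^ 3 * x * z ^ 4) * z ^ 2 * x := by rw [h2]
      _ = z ^ 4 * x * z ^ 3 * (x * z ^ 5 * z * x) := by
          simp only [pow_succ, pow_zero, one_mul, mul_assoc]
      _ = z ^ 4 * x * z ^ 3 * (x * z * x) := by rw [hz, mul_one]
      _ = z ^ 4 * x * z ^ 3 * (z ^ 4 * x * z ^ 4) := by rw [h]
      _ = z ^ 4 * x * (z ^ 5 * z ^ 2) * (x * z ^ 4) := by
          simp only [pow_succ, pow_zero, one_mul, mul_assoc]
      _ = _ := by rw [hz, one_mul]; simp only [mul_assoc]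
  · exact ⟨0, 11, by simp [rep]⟩
  · refine ⟨1, 8, ?_⟩
    change x * z ^ 2 * x * z ^ 4 * x = z ^ 1 * (x * z ^ 2 * x * z ^ 2)
    calc x * z ^ 2 * x * z ^ 4 * x = x * z ^ 2 * (x * z ^ 4 * x) := by simp only [mul_assoc]
      _ = x * z ^ 2 * (z * x * z) := by rw [h4]
      _ = (x * z ^ 3 * x) * z := by simp only [pow_succ, pow_zero, one_mul, mul_assoc]
      _ = (z * x * z ^ 2 * x * z) * z := by rw [h3]
      _ = _ := by simp only [pow_succ, pow_zero, one_mul, mul_assoc]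
  · refine ⟨0, 9, ?_⟩
    change x * z ^ 2 * x * z ^ 3 * x * x = z ^ 0 * (x * z ^ 2 * x * z ^ 3)
    rw [key, pow_zero, one_mul]

theorem zpow_shift (hz : z ^ 5 = 1) (a b : ℕ) : z ^ a * z ^ b = z ^ ((a + b) % 5) := by
  conv_lhs => rw [← pow_add, ← Nat.div_add_mod (a + b) 5, pow_add, pow_mul, hz, one_pow, one_mul]

theorem mem_of_eq (hz : z ^ 5 = 1) (a : Fin 5) (b : ℕ) (j : Fin 12) (g : G)
    (hg : g = z ^ b * rep x z j) : z ^ (a : ℕ) * g ∈ Set.range (el x z) := by
  refine ⟨(⟨((a : ℕ) + b) % 5, Nat.mod_lt _ (by norm_num)⟩, j), ?_⟩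
  simp only [el]
  rw [hg, ← mul_assoc, zpow_shift hz]

theorem range_mul (hx : x * x = 1) (hz : z ^ 5 = 1) (h : x * z * x = z ^ 4 * x * z ^ 4)
    {g : G} (hg : g ∈ Set.range (el x z)) :
    g * x ∈ Set.range (el x z) ∧ g * z ∈ Set.range (el x z) := by
  obtain ⟨⟨a, i⟩, rfl⟩ := hg
  obtain ⟨b, j, hbj⟩ := mulx hx hz h i
  obtain ⟨c, k, hck⟩ := mulz hx hz h i
  constructor
  · have := mem_of_eq (x := x) hz a b j _ hbj
    simpa only [el, mul_assoc] using this
  · have := mem_of_eq (x := x) hz a c k _ hck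
    simpa only [el, mul_assoc] using this

theorem range_mul_pow {g t : G} {S : Set G} (h : ∀ s ∈ S, s * t ∈ S) (hg : g ∈ S) (n : ℕ) :
    g * t ^ n ∈ S := by
  induction n with
  | zero => simpa using hg
  | succ n ih => rw [pow_succ, ← mul_assoc]; exact h _ ih

/-- If `G` is generated by `x, z` with `x ^ 2 = z ^ 5 = (z x) ^ 3 = 1`, then `|G| ≤ 60`. -/
theorem card_le (hx : x * x = 1) (hz : z ^ 5 = 1) (h : x * z * x = z ^ 4 * x * z ^ 4)
    (hgen : Subgroup.closure {x, z} = ⊤) : Nat.card G ≤ 60 := by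
  have hinvx : x⁻¹ = x ^ 1 := by rw [pow_one]; exact inv_eq_of_mul_eq_one_left hx
  have hinvz : z⁻¹ = z ^ 4 := by
    apply inv_eq_of_mul_eq_one_left
    rw [← pow_succ, hz]
  have hall : ∀ g : G, g ∈ Set.range (el x z) := by
    intro g
    have hg : g ∈ Subgroup.closure {x, z} := by rw [hgen]; trivial
    induction hg using Subgroup.closure_induction_right with
    | one => exact ⟨(0, 0), by simp [el, rep]⟩
    | mul_right a ha b hb ih =>
      rcases hb with rfl | rfl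
      · exact (range_mul hx hz h ih).1
      · exact (range_mul hx hz h ih).2
    | mul_inv_cancel a ha b hb ih =>
      rcases hb with rfl | rfl
      · rw [hinvx]; exact range_mul_pow (fun s hs => (range_mul hx hz h hs).1) ih 1
      · rw [hinvz]; exact range_mul_pow (fun s hs => (range_mul hx hz h hs).2) ih 4
  have hsurj : Function.Surjective (el x z) := fun g => hall g
  have := Nat.card_le_card_of_surjective (el x z) hsurj
  simpa using this

end Bound

/-- `n ∣ 2 ^ n - 1` forces `n = 1`. -/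
theorem eq_one_of_dvd {n : ℕ} (hn : 0 < n) (h : n ∣ 2 ^ n - 1) : n = 1 := by
  by_contra hne
  have hp : n.minFac.Prime := Nat.minFac_prime hne
  have : Fact n.minFac.Prime := ⟨hp⟩
  have h2 : ((2 : ZMod n.minFac)) ^ n = 1 := by
    have h3 : n.minFac ∣ 2 ^ n - 1 := (Nat.minFac_dvd n).trans h
    have h4 : ((2 ^ n - 1 : ℕ) : ZMod n.minFac) = 0 := (ZMod.natCast_eq_zero_iff _ _).2 h3
    rw [Nat.cast_sub Nat.one_le_two_pow] at h4
    push_cast at h4
    exact sub_eq_zero.1 h4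
  have hne0 : (2 : ZMod n.minFac) ≠ 0 := by
    intro h0
    rw [h0, zero_pow hn.ne'] at h2
    exact zero_ne_one h2
  have ho1 : orderOf (2 : ZMod n.minFac) ∣ n := orderOf_dvd_of_pow_eq_one h2
  have ho2 : orderOf (2 : ZMod n.minFac) ∣ n.minFac - 1 :=
    orderOf_dvd_of_pow_eq_one (ZMod.pow_card_sub_one_eq_one hne0)
  have ho : orderOf (2 : ZMod n.minFac) = 1 := by
    by_contra hc
    have h5 : n.minFac ≤ orderOf (2 : ZMod n.minFac) := by
      have h6 : (orderOf (2 : ZMod n.minFac)).minFac.Prime := Nat.minFac_prime hc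
      have h7 : n.minFac ≤ (orderOf (2 : ZMod n.minFac)).minFac :=
        Nat.minFac_le_of_dvd h6.two_le ((Nat.minFac_dvd _).trans ho1)
      exact h7.trans (Nat.minFac_le (Nat.pos_of_dvd_of_pos ho1 hn))
    have h8 : 0 < n.minFac - 1 := by have := hp.two_le; omega
    have h9 := Nat.le_of_dvd h8 ho2
    omega
  rw [orderOf_eq_one_iff] at ho
  have h10 : (1 : ZMod n.minFac) = 0 := by
    have : (2 : ZMod n.minFac) = 1 + 1 := by norm_num
    rw [this] at ho
    simp at ho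
  exact one_ne_zero h10

/-- Baumslag's trick: in a finite group, `a` conjugated by a conjugate of `a` cannot be `a ^ 2`
unless `a = 1`. -/
theorem eq_one_of_conj {G : Type*} [Group G] [Finite G] (a b : G)
    (h : (b⁻¹ * a * b)⁻¹ * a * (b⁻¹ * a * b) = a ^ 2) : a = 1 := by
  set c := b⁻¹ * a * b with hc
  have hcn : ∀ m : ℕ, c ^ m = b⁻¹ * a ^ m * b := by
    intro m
    induction m with
    | zero => simp
    | succ m ih => rw [pow_succ, ih, pow_succ, hc]; group
  have hk : ∀ k : ℕ, (c ^ k)⁻¹ * a * c ^ k = a ^ 2 ^ k := by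
    intro k
    induction k with
    | zero => simp
    | succ k ih =>
      have e1 : (c ^ (k + 1))⁻¹ * a * c ^ (k + 1) = c⁻¹ * ((c ^ k)⁻¹ * a * c ^ k) * c := by
        rw [pow_succ]; group
      have e2 : ∀ m : ℕ, c⁻¹ * a ^ m * c = (c⁻¹ * a * c) ^ m := by
        intro m
        induction m with
        | zero => simp
        | succ m ih2 => rw [pow_succ, pow_succ, ← ih2]; group
      rw [e1, ih, e2, h, ← pow_mul, ← pow_succ']
  have hn : 0 < orderOf a := orderOf_pos a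
  have h1 := hk (orderOf a)
  have h2 : c ^ orderOf a = 1 := by rw [hcn, pow_orderOf_eq_one]; group
  rw [h2, inv_one, one_mul, mul_one] at h1
  have h3 : a ^ (2 ^ orderOf a - 1) = 1 := by
    have h4 : a ^ (2 ^ orderOf a - 1) * a = 1 * a := by
      rw [← pow_succ, Nat.sub_add_cancel Nat.one_le_two_pow, one_mul, ← h1]
    exact mul_right_cancel h4
  have h5 := eq_one_of_dvd hn (orderOf_dvd_of_pow_eq_one h3)
  exact orderOf_eq_one_iff.1 h5

/-- The product of the three letters. -/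
def aW : FreeGroup (Fin 3) := FreeGroup.of 0 * FreeGroup.of 1 * FreeGroup.of 2

/-- The conjugate of `aW` by a power of the first letter. -/
def cW (k : ℕ) : FreeGroup (Fin 3) := (FreeGroup.of 0 ^ k)⁻¹ * aW * FreeGroup.of 0 ^ k

/-- The commutator words. -/
def uW (k : ℕ) : FreeGroup (Fin 3) := (cW k)⁻¹ * aW⁻¹ * cW k * aW

theorem uW_mem (k : ℕ) : uW k ∈ commutator (FreeGroup (Fin 3)) := by
  have : uW k = ⁅(cW k)⁻¹, aW⁻¹⁆ := by
    rw [commutatorElement_def, inv_inv, inv_inv, uW]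
  rw [this, commutator_def]
  exact Subgroup.commutator_mem_commutator (Subgroup.mem_top _) (Subgroup.mem_top _)

theorem uW_injective : Function.Injective uW := by
  let X : Matrix.SpecialLinearGroup (Fin 2) ℤ := ⟨!![1, 1; 0, 1], by simp [Matrix.det_fin_two]⟩
  let A : Matrix.SpecialLinearGroup (Fin 2) ℤ := ⟨!![1, 0; 1, 1], by simp [Matrix.det_fin_two]⟩
  let φ : FreeGroup (Fin 3) →* Matrix.SpecialLinearGroup (Fin 2) ℤ :=
    FreeGroup.lift ![X, X⁻¹ * A, 1]
  have hX : ∀ k : ℕ, ((X ^ k : Matrix.SpecialLinearGroup (Fin 2) ℤ) :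
      Matrix (Fin 2) (Fin 2) ℤ) = !![1, (k : ℤ); 0, 1] := by
    intro k
    induction k with
    | zero => ext i j; fin_cases i <;> fin_cases j <;> simp
    | succ k ih =>
      rw [pow_succ, Matrix.SpecialLinearGroup.coe_mul, ih]
      ext i j
      fin_cases i <;> fin_cases j <;> simp [X, Matrix.mul_apply, Fin.sum_univ_two, add_comm]
  have hφa : φ aW = A := by
    simp [φ, aW, Matrix.cons_val_two]
  have hφ0 : φ (FreeGroup.of 0) = X := by simp [φ]
  have key : ∀ k : ℕ, ((φ (uW k) : Matrix.SpecialLinearGroup (Fin 2) ℤ) :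
      Matrix (Fin 2) (Fin 2) ℤ) 0 1 = (k : ℤ) ^ 4 := by
    intro k
    have e : φ (uW k) = ((X ^ k)⁻¹ * A * X ^ k)⁻¹ * A⁻¹ * ((X ^ k)⁻¹ * A * X ^ k) * A := by
      simp only [uW, cW, map_mul, map_inv, map_pow, hφa, hφ0]
    rw [e]
    have hA : ((A : Matrix.SpecialLinearGroup (Fin 2) ℤ) : Matrix (Fin 2) (Fin 2) ℤ) =
      !![1, 0; 1, 1] := rfl
    have e2 : ((X ^ k)⁻¹ * A * X ^ k)⁻¹ * A⁻¹ * ((X ^ k)⁻¹ * A * X ^ k) * A =
        (X ^ k)⁻¹ * A⁻¹ * (X ^ k) * A⁻¹ * (X ^ k)⁻¹ * A * X ^ k * A := by group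
    rw [e2]
    rw [Matrix.SpecialLinearGroup.coe_mul, Matrix.SpecialLinearGroup.coe_mul,
      Matrix.SpecialLinearGroup.coe_mul, Matrix.SpecialLinearGroup.coe_mul,
      Matrix.SpecialLinearGroup.coe_mul, Matrix.SpecialLinearGroup.coe_mul,
      Matrix.SpecialLinearGroup.coe_mul, Matrix.SpecialLinearGroup.coe_inv,
      Matrix.SpecialLinearGroup.coe_inv, hX, hA, Matrix.adjugate_fin_two_of,
      Matrix.adjugate_fin_two_of]
    simp [Matrix.mul_apply, Fin.sum_univ_two]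
    ring
  intro k l hkl
  have h1 := key k
  rw [hkl, key l] at h1
  have h2 : (l : ℕ) ^ 4 = k ^ 4 := by exact_mod_cast h1
  exact (Nat.pow_left_injective (by norm_num : 4 ≠ 0) h2).symm

section Words

variable {G : Type*} [Group G]

theorem lift_aW (ξ η ζ : G) : FreeGroup.lift ![ξ, η, ζ] aW = ξ * η * ζ := by
  simp [aW, Matrix.cons_val_two]

theorem lift_uW (ξ η ζ : G) (k : ℕ) : FreeGroup.lift ![ξ, η, ζ] (uW k) =
    ((ξ ^ k)⁻¹ * (ξ * η * ζ) * ξ ^ k)⁻¹ * (ξ * η * ζ)⁻¹ *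
      ((ξ ^ k)⁻¹ * (ξ * η * ζ) * ξ ^ k) * (ξ * η * ζ) := by
  have h0 : FreeGroup.lift ![ξ, η, ζ] (FreeGroup.of 0) = ξ := by simp
  simp only [uW, cW, map_mul, map_inv, map_pow, lift_aW, h0]

/-- In a finite group the relation `ξ η ζ u = 1` for `u = uW k` forces `ξ η ζ = 1`. -/
theorem prod_eq_one [Finite G] (ξ η ζ : G) (k : ℕ)
    (h : ξ * η * ζ * FreeGroup.lift ![ξ, η, ζ] (uW k) = 1) : ξ * η * ζ = 1 := by
  rw [lift_uW] at h
  set a := ξ * η * ζ with ha
  apply eq_one_of_conj a (ξ ^ k)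
  set c := (ξ ^ k)⁻¹ * a * ξ ^ k with hc
  have h1 : a * (c⁻¹ * a⁻¹ * c) * a = 1 := by rw [← h]; simp only [mul_assoc]
  have h2 : c⁻¹ * a⁻¹ * c = a⁻¹ * a⁻¹ := by
    have h3 : a * (c⁻¹ * a⁻¹ * c) = a⁻¹ := eq_inv_of_mul_eq_one_left h1
    calc c⁻¹ * a⁻¹ * c = a⁻¹ * (a * (c⁻¹ * a⁻¹ * c)) := by group
      _ = a⁻¹ * a⁻¹ := by rw [h3]
  have h4 : (c⁻¹ * a * c)⁻¹ = (a ^ 2)⁻¹ := by
    calc (c⁻¹ * a * c)⁻¹ = c⁻¹ * a⁻¹ * c := by group
      _ = a⁻¹ * a⁻¹ := h2
      _ = (a ^ 2)⁻¹ := by group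
  exact inv_injective h4

end Words

theorem eq_five {n k : ℕ} (hn : Admissible 2 3 5 (uW k) n) : n = 5 := by
  obtain ⟨h3, ξ, η, ζ, hgen, hξ, hη, hζ, hrel⟩ := hn
  replace hrel := prod_eq_one ξ η ζ k hrel
  have hx : ξ * ξ = 1 := by rw [← pow_two]; exact hξ
  have hηe : η = ξ⁻¹ * ζ⁻¹ := by
    rw [eq_mul_inv_iff_mul_eq, ← mul_eq_one_iff_eq_inv', ← mul_assoc]; exact hrel
  have hgen2 : Subgroup.closure {ξ, ζ} = ⊤ := by
    rw [eq_top_iff, ← hgen, Subgroup.closure_le]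
    have h1 : ξ ∈ Subgroup.closure {ξ, ζ} := Subgroup.subset_closure (by simp)
    have h2 : ζ ∈ Subgroup.closure {ξ, ζ} := Subgroup.subset_closure (by simp)
    rintro a (rfl | rfl | rfl)
    · exact h1
    · rw [hηe]; exact mul_mem (inv_mem h1) (inv_mem h2)
    · exact h2
  have hinv : ξ⁻¹ = ξ := inv_eq_of_mul_eq_one_left hx
  have hinvz : ζ⁻¹ = ζ ^ 4 := by
    apply inv_eq_of_mul_eq_one_left
    rw [← pow_succ, hζ]
  have h : ξ * ζ * ξ = ζ ^ 4 * ξ * ζ ^ 4 := by
    have e : (ζ * ξ) ^ 3 = 1 := by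
      have : ζ * ξ = η⁻¹ := by rw [hηe]; group
      rw [this, inv_pow, hη, inv_one]
    rw [← hinvz]
    have e2 : ζ * (ξ * ζ * ξ) * (ζ * ξ) = 1 := by
      rw [← e]; simp only [pow_succ, pow_zero, one_mul, mul_assoc]
    have e3 : ξ * ζ * ξ = ζ⁻¹ * (ζ * ξ)⁻¹ := by
      rw [eq_inv_mul_iff_mul_eq, eq_inv_iff_mul_eq_one]; exact e2
    rw [e3, mul_inv_rev, hinv, mul_assoc]
  have hcard := card_le hx hζ h hgen2
  have : Nontrivial (Fin n) := Fin.nontrivial_iff_two_le.2 (by omega)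
  have hfac : 2 * Nat.card (alternatingGroup (Fin n)) = n.factorial := by
    rw [two_mul_nat_card_alternatingGroup, Nat.card_perm, Nat.card_eq_fintype_card,
      Fintype.card_fin]
  have hn5 : n ≤ 5 := by
    by_contra hcon
    have h6 : Nat.factorial 6 ≤ n.factorial := Nat.factorial_le (by omega)
    have : Nat.factorial 6 = 720 := by decide
    omega
  by_contra hne
  have hcop : Nat.Coprime 5 (Nat.card (alternatingGroup (Fin n))) := by
    have h34 : n = 3 ∨ n = 4 := by omega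
    rcases h34 with h34 | h34
    · have h7 : n.factorial = 6 := by rw [h34]; decide
      have h8 : Nat.card (alternatingGroup (Fin n)) = 3 := by omega
      rw [h8]; decide
    · have h7 : n.factorial = 24 := by rw [h34]; decide
      have h8 : Nat.card (alternatingGroup (Fin n)) = 12 := by omega
      rw [h8]; decide
  have hζ1 : ζ = 1 := by
    have h1 : orderOf ζ ∣ 5 := orderOf_dvd_of_pow_eq_one hζ
    have h2 : orderOf ζ ∣ Nat.card (alternatingGroup (Fin n)) := orderOf_dvd_natCard ζ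
    exact orderOf_eq_one_iff.1 (Nat.eq_one_of_dvd_coprimes hcop h1 h2)
  have hξ1 : ξ = 1 := by
    have h1 : ξ ^ 3 = 1 := by
      have : ξ = η⁻¹ := by rw [hηe, hζ1]; group
      rw [this, inv_pow, hη, inv_one]
    calc ξ = ξ ^ 3 * (ξ * ξ)⁻¹ := by group
      _ = 1 := by rw [h1, hx]; simp
  rw [hζ1, hξ1] at hgen2
  have htriv : (⊤ : Subgroup (alternatingGroup (Fin n))) = ⊥ := by
    rw [← hgen2, Subgroup.closure_eq_bot_iff]
    rintro a (rfl | rfl) <;> simp
  have hnt : Nontrivial (alternatingGroup (Fin n)) :=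
    alternatingGroup.nontrivial_of_three_le_card (by simpa using h3)
  exact absurd htriv top_ne_bot

theorem adm_five (k : ℕ) : Admissible 2 3 5 (uW k) 5 := by
  obtain ⟨ξ, hξd⟩ : ∃ ξ : alternatingGroup (Fin 5),
      (ξ : Equiv.Perm (Fin 5)) = Equiv.swap 0 1 * Equiv.swap 2 3 :=
    ⟨⟨_, Equiv.Perm.mem_alternatingGroup.2 (by decide)⟩, rfl⟩
  obtain ⟨ζ, hζd⟩ : ∃ ζ : alternatingGroup (Fin 5), (ζ : Equiv.Perm (Fin 5)) = finRotate 5 :=
    ⟨⟨_, Equiv.Perm.mem_alternatingGroup.2 (by decide)⟩, rfl⟩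
  obtain ⟨η, hηd⟩ : ∃ η : alternatingGroup (Fin 5),
      (η : Equiv.Perm (Fin 5)) = Equiv.swap 0 4 * Equiv.swap 4 2 :=
    ⟨⟨_, Equiv.Perm.mem_alternatingGroup.2 (by decide)⟩, rfl⟩
  have hξ : ξ ^ 2 = 1 := by
    apply Subtype.ext; rw [Subgroup.coe_pow, hξd]; decide
  have hη : η ^ 3 = 1 := by
    apply Subtype.ext; rw [Subgroup.coe_pow, hηd]; decide
  have hζ : ζ ^ 5 = 1 := by
    apply Subtype.ext; rw [Subgroup.coe_pow, hζd]; decide
  have hrel : ξ * η * ζ = 1 := by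
    apply Subtype.ext; rw [Subgroup.coe_mul, Subgroup.coe_mul, hξd, hηd, hζd]; decide
  have hξne : ξ ≠ 1 := by
    intro h; rw [h] at hξd; revert hξd; decide
  have hηne : η ≠ 1 := by
    intro h; rw [h] at hηd; revert hηd; decide
  have hζne : ζ ≠ 1 := by
    intro h; rw [h] at hζd; revert hζd; decide
  refine ⟨by norm_num, ξ, η, ζ, ?_, hξ, hη, hζ, ?_⟩
  · have hξo : orderOf ξ = 2 := orderOf_eq_prime hξ hξne
    have hηo : orderOf η = 3 := by
      have : Fact (Nat.Prime 3) := ⟨by norm_num⟩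
      exact orderOf_eq_prime hη hηne
    have hζo : orderOf ζ = 5 := by
      have : Fact (Nat.Prime 5) := ⟨by norm_num⟩
      exact orderOf_eq_prime hζ hζne
    set H := Subgroup.closure {ξ, η, ζ} with hH
    have m1 : ξ ∈ H := Subgroup.subset_closure (by simp)
    have m2 : η ∈ H := Subgroup.subset_closure (by simp)
    have m3 : ζ ∈ H := Subgroup.subset_closure (by simp)
    have d1 := Subgroup.orderOf_dvd_natCard H m1
    have d2 := Subgroup.orderOf_dvd_natCard H m2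
    have d3 := Subgroup.orderOf_dvd_natCard H m3
    rw [hξo] at d1
    rw [hηo] at d2
    rw [hζo] at d3
    have hc : Nat.card (alternatingGroup (Fin 5)) = 60 := by
      rw [nat_card_alternatingGroup]; simp; decide
    have hi : Nat.card H * H.index = 60 := by rw [← hc]; exact H.card_mul_index
    have hidx : H.index = 1 ∨ H.index = 2 := by
      have hd : 30 ∣ Nat.card H := by omega
      obtain ⟨t, ht⟩ := hd
      rw [ht] at hi
      have : t * H.index = 2 := by nlinarith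
      have hdv : H.index ∣ 2 := ⟨t, by rw [mul_comm]; exact this.symm⟩
      exact (Nat.dvd_prime Nat.prime_two).1 hdv
    rcases hidx with h1 | h2
    · exact Subgroup.index_eq_one.1 h1
    · exfalso
      have hnorm : H.Normal := Subgroup.normal_of_index_eq_two h2
      rcases hnorm.eq_bot_or_eq_top with hb | ht
      · rw [hb] at m1
        have : ξ = 1 := Subgroup.mem_bot.1 m1
        rw [this, orderOf_one] at hξo
        omega
      · rw [ht, Subgroup.index_top] at h2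
        omega
  · rw [lift_uW, hrel]; group

theorem main : ∃ p q r : ℕ, p.Prime ∧ q.Prime ∧ r.Prime ∧ p ≠ q ∧ p ≠ r ∧ q ≠ r ∧
    {u : FreeGroup (Fin 3) | u ∈ commutator (FreeGroup (Fin 3)) ∧
      {n : ℕ | Admissible p q r u n} = {5}}.Infinite := by
  refine ⟨2, 3, 5, by norm_num, by norm_num, by norm_num, by norm_num, by norm_num,
    by norm_num, ?_⟩
  apply Set.infinite_of_injective_forall_mem uW_injective
  intro k
  refine ⟨uW_mem k, ?_⟩
  ext n
  exact ⟨eq_five, fun h => by rw [Set.mem_singleton_iff.1 h]; exact adm_five k⟩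

end Pool.Agent.H19W
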